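import Pool.Agent.R604.RZ.C

/-!
# Nonsmooth countable Borel equivalence relations have transitive continuous action realizations

`E` is generated by a countable group of Borel involutions (Feldman-Moore). By the Glimm-Effros
dichotomy and a Schroeder-Bernstein argument some invariant Borel set `Y` with nonempty complement
`W` has `E` restricted to `Y` isomorphic to `E₀ × I_ℕ` on `2^ℕ × ℕ`. Give `W` a Polish topology in
which the group acts continuously, let `D` be a countable dense invariant subset of `W`, and glue
clopen copies of `2^ℕ` indexed by `D × ℕ` to `W` in such a way that they accumulate at `W` like the
points of `D`. The group acts on the index set through `D`; with the flips of coordinates and the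
finite permutations of the copies we get `E₀ × I` on the new part, where every orbit is dense.
-/

set_option autoImplicit false

namespace Pool.Agent.Results.MP_06d84d_lc.TransitiveRealization

/-- The equivalence relation `E` has countable classes and is a Borel subset of the square. -/
structure CountableBorel {X : Type} [MeasurableSpace X] (E : X → X → Prop) : Prop where
  equivalence : Equivalence E
  borel : MeasurableSet {p : X × X | E p.1 p.2}
  countable : ∀ x, {y | E x y}.Countable

/-- `E` is smooth. -/
def Smooth {X : Type} [MeasurableSpace X] (E : X → X → Prop) : Prop :=
  ∃ f : X → ℝ, Measurable f ∧ ∀ x y, E x y ↔ f x = f y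

/-- `E` has a transitive continuous action realization: there are a Polish space `Y` (with its Borel
sets), a countable group `G` acting on `Y` by homeomorphisms and a Borel isomorphism `e` from the
underlying space of `E` to `Y` which carries `E` to the orbit equivalence relation, and some orbit
is dense in `Y`. -/
def HasTransitiveRealization {X : Type} [MeasurableSpace X] (E : X → X → Prop) : Prop :=
  ∃ (Y : Type) (_ : TopologicalSpace Y) (_ : PolishSpace Y) (_ : MeasurableSpace Y)
    (_ : BorelSpace Y) (G : Type) (_ : Group G) (_ : Countable G) (_ : MulAction G Y)
    (e : X ≃ᵐ Y), (∀ g : G, Continuous fun y : Y => g • y) ∧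
    (∀ x x', E x x' ↔ e x' ∈ MulAction.orbit G (e x)) ∧
    ∃ y : Y, Dense (MulAction.orbit G y)

/-- Every nonsmooth countable Borel equivalence relation (aperiodic or not) has a transitive
continuous action realization. -/
theorem result {X : Type} [MeasurableSpace X] [StandardBorelSpace X] (E : X → X → Prop)
    (hE : CountableBorel E) (hns : ¬ Smooth E) : HasTransitiveRealization E :=
  Pool.Agent.R604.RZ.main E hE.equivalence hE.borel hE.countable hns

end Pool.Agent.Results.MP_06d84d_lc.TransitiveRealization
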